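import Pool.Agent.Lib.MP_3e27e0_al.LC.Main
import Pool.Agent.Lib.MP_3e27e0_al.LC.Cg
import Pool.Agent.Lib.MP_3e27e0_al.LC.FG
import Pool.Agent.Lib.MP_3e27e0_al.CM.ThompL

/-!
# MP_3e27e0_al: F and F × ℤ are not uniform lattices in a common locally compact group

`TF` is Thompson's group F, as a group of increasing bijections of `[0, 1]`. See the claim file for the
statement in words, `CM/Def.lean`, `CM/Thomp.lean`, `CM/Stmt.lean`, `LC/Def.lean` and `LC/Abs.lean` in
`Pool/Agent/Lib/MP_3e27e0_al` for the definitions.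
-/

set_option autoImplicit false

universe u v

namespace Pool.Agent.Results.MP_3e27e0_al.NoCommonEnvelope

open Pool.Agent.Lib.MP_3e27e0_al.CM Pool.Agent.Lib.MP_3e27e0_al.LC

/-- Let a subgroup `F1` of finite index of Thompson's group F (for instance F) be a uniform lattice in a
locally compact Hausdorff group `G`. Then the elements of `G` with relatively compact conjugacy class
are in a compact set; every uniform lattice in `G` has a finite FC-centre; in particular no subgroup of
finite index of F × ℤ is a uniform lattice in `G`. -/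
theorem result (F1 : Subgroup TF) (h1 : F1.FiniteIndex) (G : Type u) [Group G] [TopologicalSpace G]
    [IsTopologicalGroup G] [LocallyCompactSpace G] [T2Space G] (i : F1 →* G) (hi : UL i) :
    (∃ D : Set G, IsCompact D ∧ ∀ b : G, Bd b → b ∈ D) ∧
    (∀ (Λ : Type v) [Group Λ] (j : Λ →* G), UL j → (FCcentre Λ).Finite) ∧
    (∀ L1 : Subgroup (TF × Multiplicative ℤ), L1.FiniteIndex → ∀ j : L1 →* G, ¬ UL j) := by
  have hfg : Group.FG F1 := by
    have := fg_TF
    exact Subgroup.fg_of_index_ne_zero F1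
  obtain ⟨L, hL1, hL2⟩ : ∃ L : TF → ℕ, (∀ g h, L (g * h) ≤ L g + L h) ∧
      ∀ g, g ≠ 1 → ∀ n : ℕ, n ≤ L (g ^ n) := len_thompson
  obtain ⟨H, hS, hgr⟩ := exists_sys (cg_of_UL hfg hi) hi
    ⟨fun h => L h, fun g h => hL1 g h, fun g hg n => hL2 (g : TF) (fun h => hg (Subtype.ext h)) n⟩
  obtain ⟨y, C, hP⟩ := prl_F F1 h1
  obtain ⟨D, hD, hbd⟩ := bd_compact hi hP hS hgr
  refine ⟨⟨D, hD, hbd⟩, fun Λ _ j hj => fc_fin hj hD hbd, ?_⟩
  intro L1 h2 j hj
  have h3 := fc_fin hj hD hbd
  -- the elements of `1 × ℤ` in `L1`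
  obtain ⟨m, hm0, hm⟩ : ∃ m : ℕ, m ≠ 0 ∧
      ((1 : TF), Multiplicative.ofAdd (m : ℤ)) ∈ L1 := by
    obtain ⟨m, hm0, -, hm⟩ := Subgroup.exists_pow_mem_of_index_ne_zero h2.index_ne_zero
      ((1 : TF), Multiplicative.ofAdd (1 : ℤ))
    refine ⟨m, hm0.ne', ?_⟩
    rwa [Prod.pow_mk, one_pow, ← ofAdd_nsmul, nsmul_eq_mul, mul_one] at hm
  set c : L1 := ⟨((1 : TF), Multiplicative.ofAdd (m : ℤ)), hm⟩ with hcdef
  have h4 : ∀ n : ℕ, c ^ n ∈ {l : L1 | {c : L1 | ∃ m : L1, c = m * l * m⁻¹}.Finite} := by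
    intro n
    refine (Set.finite_singleton (c ^ n)).subset ?_
    rintro _ ⟨k, rfl⟩
    have h5 : k * c = c * k := by
      apply Subtype.ext
      apply Prod.ext
      · change (k : TF × Multiplicative ℤ).1 * 1 = 1 * (k : TF × Multiplicative ℤ).1
        rw [mul_one, one_mul]
      · exact mul_comm _ _
    have h6 : k * c ^ n = c ^ n * k := (show Commute k c from h5).pow_right n
    rw [Set.mem_singleton_iff, h6, mul_inv_cancel_right]
  have h5 : Function.Injective fun n : ℕ => c ^ n := by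
    intro n k hnk
    have h6 := congrArg (fun l : L1 => Multiplicative.toAdd (l : TF × Multiplicative ℤ).2) hnk
    have h7 : ∀ n : ℕ, Multiplicative.toAdd ((c ^ n : L1) : TF × Multiplicative ℤ).2 =
        (n : ℤ) * m := by
      intro n
      change Multiplicative.toAdd ((Multiplicative.ofAdd (m : ℤ)) ^ n) = _
      rw [toAdd_pow, toAdd_ofAdd, nsmul_eq_mul]
    simp only [h7] at h6
    have h8 : (m : ℤ) ≠ 0 := by exact_mod_cast hm0
    exact_mod_cast mul_right_cancel₀ h8 h6
  exact Set.infinite_of_injective_forall_mem h5 h4 h3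

end Pool.Agent.Results.MP_3e27e0_al.NoCommonEnvelope
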