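import Pool.Agent.Lib.MP_3e27e0_al.LC.Prod

/-!
# MP_3e27e0_al: F is not a uniform lattice in a product of two non-compact groups

`TF` is Thompson's group F, as a group of increasing bijections of `[0, 1]`. See the claim file for the
statement in words, `CM/Def.lean`, `CM/Thomp.lean`, `CM/Stmt.lean` and `LC/Def.lean` in
`Pool/Agent/Lib/MP_3e27e0_al` for the definitions.
-/

set_option autoImplicit false

universe u v

namespace Pool.Agent.Results.MP_3e27e0_al.NoProductEnvelope

open Pool.Agent.Lib.MP_3e27e0_al.CM Pool.Agent.Lib.MP_3e27e0_al.LC

/-- If a subgroup `F1` of finite index of Thompson's group F (for instance F) is a uniform lattice in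
the product of two locally compact Hausdorff groups, then one of the two factors is compact. -/
theorem result (F1 : Subgroup TF) (h1 : F1.FiniteIndex) (G1 : Type u) [Group G1]
    [TopologicalSpace G1] [IsTopologicalGroup G1] [LocallyCompactSpace G1] [T2Space G1]
    (G2 : Type v) [Group G2] [TopologicalSpace G2] [IsTopologicalGroup G2] [LocallyCompactSpace G2]
    [T2Space G2] (i : F1 →* G1 × G2) (hi : UL i) : CompactSpace G1 ∨ CompactSpace G2 := by
  obtain ⟨y, C, hP⟩ := prl_F F1 h1
  exact prod_compact hi hP

end Pool.Agent.Results.MP_3e27e0_al.NoProductEnvelope
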